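import Pool.Agent.Q98.SPN.Stm

set_option autoImplicit false

open scoped Matrix.Norms.L2Operator Matrix
open Finset

namespace Pool.Agent.U331.GSP.HS

open Pool.Agent.Q98.SPN

lemma tr_eq {d : ℕ} (Y : Matrix (Fin d) (Fin d) ℂ) :
    (Matrix.trace (Yᴴ * Y)).re = ∑ j, ‖(WithLp.toLp 2 (fun i => Y i j) : EuclideanSpace ℂ (Fin d))‖ ^ 2 := by
  rw [Matrix.trace, Complex.re_sum]
  refine sum_congr rfl fun j _ => ?_
  rw [Matrix.diag_apply, Matrix.mul_apply, Complex.re_sum, EuclideanSpace.norm_sq_eq]
  refine sum_congr rfl fun i _ => ?_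
  rw [Matrix.conjTranspose_apply, Complex.star_def, ← Complex.normSq_eq_conj_mul_self, Complex.ofReal_re,
    Complex.normSq_eq_norm_sq]

theorem t_HS : S_HS := by
  intro d X Y
  constructor
  · rw [tr_eq, tr_eq, mul_sum]
    refine sum_le_sum fun j _ => ?_
    rw [← mul_pow]
    refine pow_le_pow_left₀ (norm_nonneg _) ?_ 2
    exact Matrix.l2_opNorm_mulVec X (WithLp.toLp 2 (fun i => Y i j) : EuclideanSpace ℂ (Fin d))
  · intro c hc hd h
    rw [Matrix.l2_opNorm_def]
    refine ContinuousLinearMap.opNorm_le_bound _ hc fun u => ?_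
    have h1 := h (Matrix.of fun i j => if j = ⟨0, hd⟩ then u i else 0)
    rw [tr_eq, tr_eq, sum_eq_single (⟨0, hd⟩ : Fin d), sum_eq_single (⟨0, hd⟩ : Fin d)] at h1
    · rw [← mul_pow] at h1
      have h2 := (pow_le_pow_iff_left₀ (norm_nonneg _) (by positivity) (by norm_num)).1 h1
      have e1 : (WithLp.toLp 2 (fun i => (Matrix.of fun i j => if j = (⟨0, hd⟩ : Fin d) then u i else 0 :
          Matrix (Fin d) (Fin d) ℂ) i ⟨0, hd⟩) : EuclideanSpace ℂ (Fin d)) = u := by
        ext i
        simp
      rw [e1] at h2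
      refine le_trans (le_of_eq ?_) h2
      congr 1
    · intro j _ hj
      have : (fun i => (Matrix.of fun i j => if j = (⟨0, hd⟩ : Fin d) then u i else 0 :
          Matrix (Fin d) (Fin d) ℂ) i j) = 0 := by
        ext i
        simp [hj]
      rw [this]
      simp
    · intro hj
      exact absurd (mem_univ _) hj
    · intro j _ hj
      have : (fun i => (X * (Matrix.of fun i j => if j = (⟨0, hd⟩ : Fin d) then u i else 0 :
          Matrix (Fin d) (Fin d) ℂ)) i j) = 0 := by
        ext i
        simp [Matrix.mul_apply, hj]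
      rw [this]
      simp
    · intro hj
      exact absurd (mem_univ _) hj

end Pool.Agent.U331.GSP.HS
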